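import Pool.Agent.CBG.StmtsA

/-! Row SBD of squad CBG (MP_148648_gt). -/

set_option autoImplicit false
set_option maxSynthPendingDepth 3

namespace Pool.Agent.CBG.H50

open Pool.Agent.CBG

theorem isChr_comm {n : ℕ} {G : Ed n → Bil (Ed n)}
    (hG : ∀ u v w : Ed n, fderiv ℝ G 0 u v w = fderiv ℝ G 0 u w v) {v w a : Ed n}
    (h : IsChr G 0 v w a) : IsChr G 0 w v a := by
  intro z
  rw [h z]
  unfold chr
  rw [hG z v w]
  ring

/-- ROW SBD -/
theorem sbd (hchx : ChxStmt) : SbdStmt := by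
  intro n G H hGs hHs hDG hDH hpos ε lam hε hlam hcov v z a a' ha ha'
  have hnn : ∀ x : Ed n, 0 ≤ G 0 x x := by
    intro x
    by_cases hx : x = 0
    · rw [hx]
      simp
    · exact (hpos x hx).le
  set s : Ed n := a' - a with hs
  obtain ⟨⟨e, he⟩, -⟩ := hchx.2 n G 0 hpos s v
  obtain ⟨⟨f, hf⟩, -⟩ := hchx.2 n G 0 hpos s z
  have h1 := hcov v z s a e ha (isChr_comm hDG he)
  have h2 := hcov z v s a f (isChr_comm hDG ha) (isChr_comm hDG hf)
  have h3 := hcov s v z e f he hf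
  unfold cov at h1 h2 h3
  have h4 : 2 * H 0 s s = (fderiv ℝ H 0 v z s - H 0 a s - H 0 z e) +
      (fderiv ℝ H 0 z v s - H 0 a s - H 0 v f) - (fderiv ℝ H 0 s v z - H 0 e z - H 0 v f) := by
    have h5 : ∀ u, H 0 s u = H 0 a' u - H 0 a u := by
      intro u
      rw [hs, map_sub]
      rfl
    rw [h5 s, ha' s]
    unfold chr
    rw [hHs e z]
    ring
  have h6 : 2 * H 0 s s ≤ 3 * (ε * (√(G 0 v v) * √(G 0 z z) * √(G 0 s s))) := by
    have e1 := (abs_le.1 h1).2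
    have e2 := (abs_le.1 h2).2
    have e3 := (abs_le.1 h3).1
    rw [h4]
    linarith
  set h := H 0 s s with hh
  have hR : 0 ≤ 9 / 4 * ε ^ 2 * lam ^ 2 * (G 0 v v * G 0 z z) :=
    mul_nonneg (by positivity) (mul_nonneg (hnn v) (hnn z))
  by_cases hp : h ≤ 0
  · exact hp.trans hR
  · push Not at hp
    have h7 : (2 * h) ^ 2 ≤ (3 * (ε * (√(G 0 v v) * √(G 0 z z) * √(G 0 s s)))) ^ 2 :=
      pow_le_pow_left₀ (by linarith) h6 2
    have h8 : (3 * (ε * (√(G 0 v v) * √(G 0 z z) * √(G 0 s s)))) ^ 2 =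
        9 * ε ^ 2 * (G 0 v v * G 0 z z) * G 0 s s := by
      rw [mul_pow, mul_pow, mul_pow, mul_pow, Real.sq_sqrt (hnn v), Real.sq_sqrt (hnn z),
        Real.sq_sqrt (hnn s)]
      ring
    rw [h8] at h7
    have h9 : 9 * ε ^ 2 * (G 0 v v * G 0 z z) * G 0 s s ≤
        9 * ε ^ 2 * (G 0 v v * G 0 z z) * (lam ^ 2 * h) :=
      mul_le_mul_of_nonneg_left (hlam s)
        (mul_nonneg (by positivity) (mul_nonneg (hnn v) (hnn z)))
    have h10 : h * h ≤ 9 / 4 * ε ^ 2 * lam ^ 2 * (G 0 v v * G 0 z z) * h := by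
      nlinarith
    exact le_of_mul_le_mul_right h10 hp

end Pool.Agent.CBG.H50
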